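import Mathlib

/-!
# Co-consonance does not descend from the Smyth powerspace

If `X` is a locally compact Hausdorff space, then the Smyth powerspace of `X` is co-consonant.
If moreover `X` has an infinite compact subset, then `X` is not co-consonant.
-/

namespace Pool.Agent.Results.MP_dd3b7d_gt.LocallyCompactHausdorff

open Set Topology TopologicalSpace

/-- Scott open subsets of a poset. -/
def IsScottOpen {P : Type*} [PartialOrder P] (S : Set P) : Prop :=
  IsUpperSet S ∧ ∀ (D : Set P) (a : P), D.Nonempty → DirectedOn (· ≤ ·) D → IsLUB D a → a ∈ S →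
    (D ∩ S).Nonempty

/-- The upper topology of a poset: it is generated by the complements of the sets `↓x`. -/
abbrev upperTop (P : Type*) [PartialOrder P] : TopologicalSpace P :=
  generateFrom {S | ∃ x : P, S = (Iic x)ᶜ}

/-- `X` is co-consonant: the Scott topology and the upper topology of the lattice of open subsets
of `X` have the same open sets. -/
def CoConsonant (X : Type*) [TopologicalSpace X] : Prop :=
  ∀ S : Set (Opens X), IsScottOpen S ↔ IsOpen[upperTop (Opens X)] S

/-- A set is saturated if it is the intersection of the open sets containing it. -/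
def Saturated {X : Type*} [TopologicalSpace X] (A : Set X) : Prop :=
  A = ⋂₀ {U | IsOpen U ∧ A ⊆ U}

/-- The points of the Smyth powerspace: nonempty compact saturated sets. -/
def Smyth (X : Type*) [TopologicalSpace X] : Type _ :=
  {K : Set X // K.Nonempty ∧ IsCompact K ∧ Saturated K}

/-- The upper Vietoris topology. -/
instance (X : Type*) [TopologicalSpace X] : TopologicalSpace (Smyth X) :=
  generateFrom {S | ∃ U : Set X, IsOpen U ∧ S = {K : Smyth X | K.1 ⊆ U}}

/-! ### Upper open sets are Scott open -/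

lemma scottOpen_of_upperOpen {P : Type*} [PartialOrder P] {S : Set P}
    (h : IsOpen[upperTop P] S) : IsScottOpen S := by
  induction h with
  | basic s hs =>
    obtain ⟨x, rfl⟩ := hs
    refine ⟨fun a b hab ha hb => ha (le_trans hab hb), fun D a _ _ hD ha => ?_⟩
    by_contra hne
    refine ha (hD.2 fun d hd => ?_)
    by_contra hdx
    exact hne ⟨d, hd, hdx⟩
  | univ => exact ⟨isUpperSet_univ, fun D a hD _ _ _ => by simpa using hD⟩
  | inter s t _ _ hs ht =>
    refine ⟨hs.1.inter ht.1, fun D a hne hdir hlub ha => ?_⟩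
    obtain ⟨d, hd, hds⟩ := hs.2 D a hne hdir hlub ha.1
    obtain ⟨e, he, het⟩ := ht.2 D a hne hdir hlub ha.2
    obtain ⟨f, hf, hdf, hef⟩ := hdir d hd e he
    exact ⟨f, hf, hs.1 hdf hds, ht.1 hef het⟩
  | sUnion T _ ih =>
    refine ⟨fun a b hab ha => ?_, fun D a hne hdir hlub ha => ?_⟩
    · obtain ⟨s, hs, has⟩ := ha
      exact ⟨s, hs, (ih s hs).1 hab has⟩
    · obtain ⟨s, hs, has⟩ := ha
      obtain ⟨d, hd, hds⟩ := (ih s hs).2 D a hne hdir hlub has
      exact ⟨d, hd, s, hs, hds⟩

/-! ### Spaces with infinite compact subsets are not co-consonant -/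

lemma not_coConsonant {X : Type*} [TopologicalSpace X] [T1Space X] {K : Set X}
    (hK : IsCompact K) (hinf : K.Infinite) : ¬ CoConsonant X := by
  intro h
  set S : Set (Opens X) := {V | K ⊆ V} with hS
  have hScott : IsScottOpen S := by
    refine ⟨fun a b hab ha => Set.Subset.trans (show K ⊆ (a : Set X) from ha) hab,
      fun D a hne hdir hlub ha => ?_⟩
    have haD : a = sSup D := hlub.unique (isLUB_sSup D)
    have hcov : K ⊆ ⋃ d : D, (d.1 : Set X) := by
      intro x hx
      have := ha hx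
      rw [haD] at this
      simpa using this
    have : Nonempty D := hne.to_subtype
    obtain ⟨d, hd⟩ := hK.elim_directed_cover (fun d : D => (d.1 : Set X)) (fun d => d.1.isOpen)
      hcov (fun a b => by
        obtain ⟨c, hc, hac, hbc⟩ := hdir a.1 a.2 b.1 b.2
        exact ⟨⟨c, hc⟩, hac, hbc⟩)
    exact ⟨d.1, d.2, hd⟩
  have hopen := (h S).1 hScott
  let _ := upperTop (Opens X)
  have hb := isTopologicalBasis_of_subbasis (t := upperTop (Opens X)) rfl
  obtain ⟨B, ⟨f, ⟨hf, hfg⟩, rfl⟩, htop, hsub⟩ :=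
    hb.exists_subset_of_mem_open (show (⊤ : Opens X) ∈ S from fun x _ => trivial) hopen
  -- choose a point outside every `x`
  have hpt : ∀ s : f, ∃ a : X, ∀ V : Opens X, a ∈ V → V ∈ s.1 := by
    intro s
    obtain ⟨x, hx⟩ := hfg s.2
    have htx : (⊤ : Opens X) ∈ s.1 := htop s.1 s.2
    rw [hx] at htx
    have : ¬ ((⊤ : Opens X) ≤ x) := htx
    rw [SetLike.not_le_iff_exists] at this
    obtain ⟨a, -, ha⟩ := this
    refine ⟨a, fun V hV => ?_⟩
    rw [hx]
    exact fun hVx => ha (hVx hV)
  choose p hp using hpt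
  have := hf.to_subtype
  obtain ⟨b, hbK, hb⟩ := (hinf.sdiff (Set.finite_range p)).nonempty
  have hmem : (⟨{b}ᶜ, isOpen_compl_singleton⟩ : Opens X) ∈ ⋂₀ f := by
    intro s hs
    refine hp ⟨s, hs⟩ _ ?_
    intro h
    exact hb ⟨⟨s, hs⟩, h⟩
  exact (hsub hmem hbK) rfl

/-! ### The Smyth powerspace of a locally compact Hausdorff space is co-consonant -/

section Smyth

variable {X : Type*} [TopologicalSpace X]

lemma isOpen_box {U : Set X} (hU : IsOpen U) : IsOpen {K : Smyth X | K.1 ⊆ U} :=
  isOpen_generateFrom_of_mem ⟨U, hU, rfl⟩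

lemma exists_box {O : Set (Smyth X)} (hO : IsOpen O) {K : Smyth X} (hK : K ∈ O) :
    ∃ U : Set X, IsOpen U ∧ K.1 ⊆ U ∧ ∀ L : Smyth X, L.1 ⊆ U → L ∈ O := by
  induction hO with
  | basic s hs =>
    obtain ⟨U, hU, rfl⟩ := hs
    exact ⟨U, hU, hK, fun L hL => hL⟩
  | univ => exact ⟨univ, isOpen_univ, subset_univ _, fun _ _ => trivial⟩
  | inter s t _ _ hs ht =>
    obtain ⟨U, hU, hKU, h1⟩ := hs hK.1
    obtain ⟨V, hV, hKV, h2⟩ := ht hK.2
    exact ⟨U ∩ V, hU.inter hV, subset_inter hKU hKV,
      fun L hL => ⟨h1 L (hL.trans inter_subset_left), h2 L (hL.trans inter_subset_right)⟩⟩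
  | sUnion T _ ih =>
    obtain ⟨s, hs, hKs⟩ := hK
    obtain ⟨U, hU, hKU, h1⟩ := ih s hs hKs
    exact ⟨U, hU, hKU, fun L hL => ⟨s, hs, h1 L hL⟩⟩

lemma mem_of_subset {O : Set (Smyth X)} (hO : IsOpen O) {K L : Smyth X} (hK : K ∈ O)
    (hLK : L.1 ⊆ K.1) : L ∈ O := by
  obtain ⟨U, -, hKU, h⟩ := exists_box hO hK
  exact h L (hLK.trans hKU)

instance : T0Space (Smyth X) := by
  refine ⟨fun K L h => ?_⟩
  have key : ∀ K L : Smyth X, Inseparable K L → K.1 ⊆ L.1 := by
    intro K L h
    rw [L.2.2.2]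
    refine subset_sInter fun U hU => ?_
    exact (h.mem_open_iff (isOpen_box hU.1)).2 hU.2
  exact Subtype.ext ((key K L h).antisymm (key L K h.symm))

lemma saturated_of_t1 [T1Space X] (A : Set X) : Saturated A := by
  refine (subset_sInter fun U hU => hU.2).antisymm fun x hx => ?_
  by_contra hxA
  exact hx {x}ᶜ ⟨isOpen_compl_singleton, fun a ha h => hxA (h ▸ ha)⟩ rfl

lemma isOpen_not_superset [T1Space X] (C : Set X) : IsOpen {L : Smyth X | ¬ C ⊆ L.1} := by
  rw [isOpen_iff_forall_mem_open]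
  intro L hL
  obtain ⟨c, hcC, hcL⟩ := Set.not_subset.1 hL
  refine ⟨_, ?_, isOpen_box (isOpen_compl_singleton (x := c)), ?_⟩
  · intro M hM hCM
    exact hM (hCM hcC) rfl
  · intro a ha h
    exact hcL (h ▸ ha)

lemma coConsonant_smyth [T2Space X] [LocallyCompactSpace X] : CoConsonant (Smyth X) := by
  classical
  intro S
  refine ⟨fun hS => ?_, scottOpen_of_upperOpen⟩
  let _ := upperTop (Opens (Smyth X))
  rw [isOpen_iff_forall_mem_open]
  intro W hW
  -- the open sets `□ (interior C)`
  let w : Smyth X → Opens (Smyth X) := fun C => ⟨_, isOpen_box (isOpen_interior (s := C.1))⟩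
  have hwle : ∀ (V : Opens (Smyth X)) (C : Smyth X), C ∈ V → w C ≤ V := fun V C hC L hL =>
    mem_of_subset V.isOpen hC (Set.Subset.trans hL interior_subset)
  let D : Set (Opens (Smyth X)) := {V | ∃ s : Finset (Smyth X), (∀ C ∈ s, C ∈ W) ∧ V = s.sup w}
  have hDne : D.Nonempty := ⟨_, ∅, by simp, rfl⟩
  have hDdir : DirectedOn (· ≤ ·) D := by
    rintro _ ⟨s, hs, rfl⟩ _ ⟨t, ht, rfl⟩
    refine ⟨_, ⟨s ∪ t, fun C hC => ?_, rfl⟩, Finset.sup_mono Finset.subset_union_left,
      Finset.sup_mono Finset.subset_union_right⟩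
    rcases Finset.mem_union.1 hC with h | h
    exacts [hs C h, ht C h]
  have hDlub : IsLUB D W := by
    constructor
    · rintro _ ⟨s, hs, rfl⟩
      exact Finset.sup_le fun C hC => hwle W C (hs C hC)
    · intro V hV L hL
      obtain ⟨U, hU, hLU, hsub⟩ := exists_box W.isOpen hL
      obtain ⟨C, hC, hLC, hCU⟩ := exists_compact_between L.2.2.1 hU hLU
      have hCne : C.Nonempty := L.2.1.mono (hLC.trans interior_subset)
      let C' : Smyth X := ⟨C, hCne, hC, saturated_of_t1 C⟩
      have hC'W : C' ∈ W := hsub C' hCU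
      have h1 : w C' ≤ V := by
        have := hV ⟨{C'}, by simpa using hC'W, rfl⟩
        simpa using this
      exact h1 (show L.1 ⊆ interior C from hLC)
  obtain ⟨_, ⟨s, hs, rfl⟩, hsS⟩ := hS.2 D W hDne hDdir hDlub hW
  refine ⟨{V | ∀ C ∈ s, C ∈ V}, fun V hV => ?_, ?_, hs⟩
  · exact hS.1 (Finset.sup_le fun C hC => hwle V C (hV C hC)) hsS
  · have heq : {V : Opens (Smyth X) | ∀ C ∈ s, C ∈ V} =
        ⋂ C ∈ s, (Iic (⟨_, isOpen_not_superset C.1⟩ : Opens (Smyth X)))ᶜ := by
      ext V
      simp only [mem_ofPred_eq, mem_iInter, mem_compl_iff, mem_Iic]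
      refine forall₂_congr fun C _ => ⟨fun hC hle => ?_, fun hn => ?_⟩
      · exact (hle hC) subset_rfl
      · rw [SetLike.not_le_iff_exists] at hn
        obtain ⟨L, hLV, hL⟩ := hn
        have hCL : C.1 ⊆ L.1 := by
          by_contra hne
          exact hL hne
        exact mem_of_subset V.isOpen hLV hCL
    rw [heq]
    exact isOpen_biInter_finset fun C _ => isOpen_generateFrom_of_mem ⟨_, rfl⟩

end Smyth

/-- **Theorem.** For every locally compact Hausdorff space `X` with an infinite compact subset the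
Smyth powerspace of `X` is co-consonant, but `X` is not. In particular there is such a `T₀`
space (for instance the unit interval). -/
theorem result :
    (∀ (X : Type*) [TopologicalSpace X] [T2Space X] [LocallyCompactSpace X],
      CoConsonant (Smyth X) ∧ ((∃ K : Set X, IsCompact K ∧ K.Infinite) → ¬ CoConsonant X)) ∧
    ∃ (X : Type) (_ : TopologicalSpace X), T0Space X ∧ T0Space (Smyth X) ∧
      CoConsonant (Smyth X) ∧ ¬ CoConsonant X := by
  refine ⟨fun X _ _ _ => ⟨coConsonant_smyth, ?_⟩, ?_⟩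
  · rintro ⟨K, hK, hinf⟩
    exact not_coConsonant hK hinf
  · have : Infinite unitInterval := (Set.Icc_infinite one_pos).to_subtype
    exact ⟨unitInterval, inferInstance, inferInstance, inferInstance, coConsonant_smyth,
      not_coConsonant isCompact_univ infinite_univ⟩

end Pool.Agent.Results.MP_dd3b7d_gt.LocallyCompactHausdorff
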